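import Pool.Agent.helper63.TI.SpecF

/-! FD3: inclusion - exclusion. -/

set_option autoImplicit false

namespace Pool.Agent.TI

open Polynomial NumberField Pool.Agent.GJ Pool.Agent.TK
open Pool.Agent.FJ (VT Om chiO IsFrobO rf rs)
open scoped NumberField Topology

noncomputable section

theorem FD3_moebius (m : ℕ) : ∑ d ∈ m.divisors, ArithmeticFunction.moebius d =
    if m = 1 then 1 else 0 := by
  rw [← ArithmeticFunction.coe_mul_zeta_apply, ArithmeticFunction.moebius_mul_coe_zeta,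
    ArithmeticFunction.one_apply]

open Classical in
theorem FD3_card {G : Type} [Fintype G] (P : G → Prop) :
    (Nat.card {g : G // P g} : ℤ) = ∑ g : G, if P g then 1 else 0 := by
  rw [Nat.card_eq_fintype_card, Fintype.card_subtype, Finset.sum_boole]

theorem FD3 : FD3_stmt := by
  classical
  intro G _ _ N c φ n hn _ _ hc
  have : Fintype G := Fintype.ofFinite G
  simp only [FD3_card]
  simp only [Finset.mul_sum]
  rw [Finset.sum_comm]
  refine Finset.sum_congr rfl fun g _ => ?_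
  set h : G := g⁻¹ * φ * g with hh
  by_cases hex : ∃ k : ℤ, (c ^ k)⁻¹ * h ∈ N
  swap
  · have h1 : ∀ d : ℕ, ¬ ∃ k : ℤ, (c ^ ((d : ℤ) * k))⁻¹ * h ∈ N := by
      rintro d ⟨k, hk⟩
      exact hex ⟨_, hk⟩
    have h2 : ¬ ∃ k : ℤ, IsCoprime k (n : ℤ) ∧ (c ^ k)⁻¹ * h ∈ N := by
      rintro ⟨k, _, hk⟩
      exact hex ⟨k, hk⟩
    rw [if_neg h2]
    refine Finset.sum_eq_zero fun d _ => ?_
    rw [if_neg (h1 d), mul_zero]
  obtain ⟨k₀, hk₀⟩ := hex
  have hmem : ∀ k : ℤ, (c ^ k)⁻¹ * h ∈ N ↔ (n : ℤ) ∣ k₀ - k := by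
    intro k
    have h1 : (c ^ k)⁻¹ * h = c ^ (k₀ - k) * ((c ^ k₀)⁻¹ * h) := by
      have h0 : c ^ (k₀ - k) * (c ^ k₀)⁻¹ = (c ^ k)⁻¹ := by
        rw [← zpow_neg, ← zpow_add, ← zpow_neg]
        congr 1
        ring
      rw [← h0, mul_assoc]
    rw [h1, Subgroup.mul_mem_cancel_right N hk₀, hc]
  have hB : (∃ k : ℤ, IsCoprime k (n : ℤ) ∧ (c ^ k)⁻¹ * h ∈ N) ↔ Nat.gcd k₀.natAbs n = 1 := by
    have e1 : Nat.gcd k₀.natAbs n = 1 ↔ IsCoprime k₀ (n : ℤ) := by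
      rw [Int.isCoprime_iff_gcd_eq_one, Int.gcd_def]
      simp
    rw [e1]
    constructor
    · rintro ⟨k, hk, hk'⟩
      obtain ⟨t, ht⟩ := (hmem k).1 hk'
      have h3 : k₀ = k + (n : ℤ) * t := by linarith
      rw [h3]
      exact IsCoprime.add_mul_left_left hk t
    · intro hk
      exact ⟨k₀, hk, (hmem k₀).2 (by simp)⟩
  have hA : ∀ d ∈ n.divisors, ((∃ k : ℤ, (c ^ ((d : ℤ) * k))⁻¹ * h ∈ N) ↔ (d : ℤ) ∣ k₀) := by
    intro d hd
    have hdn : (d : ℤ) ∣ (n : ℤ) := by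
      exact_mod_cast Nat.dvd_of_mem_divisors hd
    constructor
    · rintro ⟨k, hk⟩
      have h3 := hdn.trans ((hmem _).1 hk)
      have h4 := dvd_add h3 (dvd_mul_right (d : ℤ) k)
      rwa [sub_add_cancel] at h4
    · rintro ⟨k, hk⟩
      refine ⟨k, (hmem _).2 ?_⟩
      rw [hk, sub_self]
      exact dvd_zero _
  have hset : n.divisors.filter (fun d : ℕ => (d : ℤ) ∣ k₀) = (Nat.gcd k₀.natAbs n).divisors := by
    ext d
    rw [Finset.mem_filter, Nat.mem_divisors, Nat.mem_divisors, Nat.dvd_gcd_iff,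
      Int.natCast_dvd]
    have h5 : Nat.gcd k₀.natAbs n ≠ 0 := Nat.gcd_ne_zero_right hn.ne'
    constructor
    · rintro ⟨⟨h6, _⟩, h7⟩
      exact ⟨⟨h7, h6⟩, h5⟩
    · rintro ⟨⟨h7, h6⟩, _⟩
      exact ⟨⟨h6, hn.ne'⟩, h7⟩
  have e2 : ∑ d ∈ n.divisors, ArithmeticFunction.moebius d *
      (if ∃ k : ℤ, (c ^ ((d : ℤ) * k))⁻¹ * h ∈ N then (1 : ℤ) else 0) =
      ∑ d ∈ n.divisors.filter (fun d : ℕ => (d : ℤ) ∣ k₀), ArithmeticFunction.moebius d := by
    rw [Finset.sum_filter]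
    refine Finset.sum_congr rfl fun d hd => ?_
    by_cases h8 : (d : ℤ) ∣ k₀
    · rw [if_pos h8, if_pos ((hA d hd).2 h8), mul_one]
    · rw [if_neg h8, if_neg (fun h9 => h8 ((hA d hd).1 h9)), mul_zero]
  rw [e2, hset, FD3_moebius]
  by_cases h10 : Nat.gcd k₀.natAbs n = 1
  · rw [if_pos h10, if_pos (hB.2 h10)]
  · rw [if_neg h10, if_neg (fun h11 => h10 (hB.1 h11))]

end

end Pool.Agent.TI
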