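import Pool.Agent.helper63.TI.SpecF

/-! FD4: fixed points on an orbit. -/

set_option autoImplicit false

namespace Pool.Agent.TI

open Polynomial NumberField Pool.Agent.GJ Pool.Agent.TK
open Pool.Agent.FJ (VT Om chiO IsFrobO rf rs)
open scoped NumberField Topology

noncomputable section

theorem FD4 : FD4_stmt := by
  intro G X _ _ _ β φ
  have h0 : ∀ x : {x : X // x ∈ MulAction.orbit G β ∧ φ • x = x}, ∃ g : G, g • β = x.1 :=
    fun x => MulAction.mem_orbit_iff.1 x.2.1
  choose s hs using h0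
  have hstab : ∀ g : G, g⁻¹ * φ * g ∈ MulAction.stabilizer G β ↔ φ • (g • β) = g • β := by
    intro g
    rw [MulAction.mem_stabilizer_iff, mul_smul, mul_smul, inv_smul_eq_iff]
  rw [mul_comm, ← Nat.card_prod]
  refine Nat.card_congr ⟨fun g => (⟨g.1 • β, MulAction.mem_orbit β g.1, (hstab g.1).1 g.2⟩,
      ⟨(s ⟨g.1 • β, MulAction.mem_orbit β g.1, (hstab g.1).1 g.2⟩)⁻¹ * g.1, ?_⟩),
    fun x => ⟨s x.1 * x.2.1, ?_⟩, ?_, ?_⟩
  · rw [MulAction.mem_stabilizer_iff, mul_smul, inv_smul_eq_iff, hs]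
  · rw [hstab, mul_smul, MulAction.mem_stabilizer_iff.1 x.2.2, hs]
    exact x.1.2.2
  · intro g
    apply Subtype.ext
    change s _ * ((s _)⁻¹ * g.1) = g.1
    rw [mul_inv_cancel_left]
  · rintro ⟨x, h⟩
    have h1 : (s x * h.1) • β = x.1 := by
      rw [mul_smul, MulAction.mem_stabilizer_iff.1 h.2, hs]
    have h2 : ∀ hh, (⟨(s x * h.1) • β, hh⟩ :
        {x : X // x ∈ MulAction.orbit G β ∧ φ • x = x}) = x := by
      intro hh
      exact Subtype.ext h1
    apply Prod.ext
    · exact h2 _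
    · apply Subtype.ext
      change (s _)⁻¹ * (s x * h.1) = h.1
      rw [h2, inv_mul_cancel_left]

end

end Pool.Agent.TI
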